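import Pool.Agent.VTP.StmtsT

/-!
# Squad VTP, row EAD: additivity of the exponents
-/

set_option autoImplicit false

namespace Pool.Agent.VTP.H49

open Finset Pool.Agent.ZOL Pool.Agent.VTP

theorem coeff_mul_two (A B : PowerSeries ℤ) (m : ℕ)
    (hA : ∀ k, 1 ≤ k → k ≤ m → PowerSeries.coeff k A = 0)
    (_hB : ∀ k, 1 ≤ k → k ≤ m → PowerSeries.coeff k B = 0) (n : ℕ) (h1 : 1 ≤ n)
    (hn : n ≤ m + 1) :
    PowerSeries.coeff n (A * B) = PowerSeries.coeff 0 A * PowerSeries.coeff n B +
      PowerSeries.coeff n A * PowerSeries.coeff 0 B := by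
  rw [PowerSeries.coeff_mul]
  have hsub : ({(0, n), (n, 0)} : Finset (ℕ × ℕ)) ⊆ antidiagonal n := by
    intro p hp
    simp only [mem_insert, mem_singleton] at hp
    rcases hp with rfl | rfl <;> simp
  rw [← Finset.sum_subset hsub]
  · rw [Finset.sum_pair]
    intro h
    have := congrArg Prod.fst h
    simp only at this
    omega
  · rintro ⟨i, j⟩ hij hne
    rw [Finset.HasAntidiagonal.mem_antidiagonal] at hij
    simp only [mem_insert, mem_singleton, Prod.mk.injEq, not_or, not_and] at hne hij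
    rcases Nat.eq_zero_or_pos i with hi | hi
    · exact absurd (by omega) (hne.1 hi)
    · rcases Nat.eq_zero_or_pos j with hj | hj
      · exact absurd hj (hne.2 (by omega))
      · rw [hA i hi (by omega), zero_mul]

theorem coeff_bx_zero (m : ℕ) (e : ℤ) : PowerSeries.coeff 0 (bx m e) = 1 := by
  unfold bx
  rw [PowerSeries.coeff_mk, if_pos (dvd_zero _), Nat.zero_div, Ring.choose_zero_right]

theorem coeff_bx_lt (m : ℕ) (e : ℤ) (k : ℕ) (h1 : 1 ≤ k) (h2 : k ≤ m) :
    PowerSeries.coeff k (bx (m + 1) e) = 0 := by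
  unfold bx
  rw [PowerSeries.coeff_mk, if_neg]
  intro h
  have := Nat.le_of_dvd h1 h
  omega

theorem coeff_bx_self (m : ℕ) (e : ℤ) : PowerSeries.coeff (m + 1) (bx (m + 1) e) = e := by
  unfold bx
  rw [PowerSeries.coeff_mk, if_pos (dvd_refl _), Nat.div_self (Nat.succ_pos m),
    Ring.choose_one_right]

/-- After `m` steps the constant coefficient is `1` and the coefficients `1, ..., m` vanish. -/
theorem st_low (f : PowerSeries ℤ) (hf : PowerSeries.constantCoeff f = 1) (m : ℕ) :
    PowerSeries.coeff 0 (st m f) = 1 ∧ ∀ k, 1 ≤ k → k ≤ m → PowerSeries.coeff k (st m f) = 0 := by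
  induction m with
  | zero =>
    refine ⟨?_, fun k h1 h2 => absurd h1 (by omega)⟩
    rw [PowerSeries.coeff_zero_eq_constantCoeff_apply]
    exact hf
  | succ m ih =>
    obtain ⟨h0, hk⟩ := ih
    have hst : st (m + 1) f =
        st m f * bx (m + 1) (-(PowerSeries.coeff (m + 1) (st m f))) := rfl
    rw [hst]
    constructor
    · rw [PowerSeries.coeff_mul, Finset.Nat.antidiagonal_zero, sum_singleton, h0, coeff_bx_zero,
        mul_one]
    · intro k h1 h2
      rw [coeff_mul_two _ _ m hk (fun j hj1 hj2 => coeff_bx_lt m _ j hj1 hj2) k h1 h2, h0,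
        coeff_bx_zero, one_mul, mul_one]
      rcases Nat.lt_or_ge m k with h3 | h3
      · have h4 : k = m + 1 := by omega
        subst h4
        rw [coeff_bx_self]
        ring
      · rw [coeff_bx_lt m _ k h1 h3, hk k h1 h3, add_zero]

theorem st_mul (h : EbxStmt) (f g : PowerSeries ℤ) (hf : PowerSeries.constantCoeff f = 1)
    (hg : PowerSeries.constantCoeff g = 1) (m : ℕ) :
    st m (f * g) = st m f * st m g ∧ PowerSeries.coeff (m + 1) (st m f * st m g) =
      PowerSeries.coeff (m + 1) (st m f) + PowerSeries.coeff (m + 1) (st m g) := by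
  have key : ∀ m, PowerSeries.coeff (m + 1) (st m f * st m g) =
      PowerSeries.coeff (m + 1) (st m f) + PowerSeries.coeff (m + 1) (st m g) := by
    intro m
    obtain ⟨f0, fk⟩ := st_low f hf m
    obtain ⟨g0, gk⟩ := st_low g hg m
    rw [coeff_mul_two _ _ m fk gk (m + 1) (by omega) le_rfl, f0, g0]
    ring
  refine ⟨?_, key m⟩
  induction m with
  | zero => rfl
  | succ m ih =>
    have h1 : st (m + 1) (f * g) =
        st m (f * g) * bx (m + 1) (-(PowerSeries.coeff (m + 1) (st m (f * g)))) := rfl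
    have h2 : st (m + 1) f =
        st m f * bx (m + 1) (-(PowerSeries.coeff (m + 1) (st m f))) := rfl
    have h3 : st (m + 1) g =
        st m g * bx (m + 1) (-(PowerSeries.coeff (m + 1) (st m g))) := rfl
    rw [h1, h2, h3, ih, key m, neg_add, (h (m + 1) (by omega)).2]
    ring

/-- **EAD**. -/
theorem ead (h : EbxStmt) : EadStmt := by
  intro f g hf hg m hm
  obtain ⟨k, rfl⟩ : ∃ k, m = k + 1 := ⟨m - 1, by omega⟩
  unfold ee
  rw [Nat.add_sub_cancel]
  obtain ⟨h1, h2⟩ := st_mul h f g hf hg k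
  rw [h1, h2]

end Pool.Agent.VTP.H49
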