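import Pool.Agent.VTP.StmtsT
import Pool.Agent.Helper11_ZOL.MPla
import Pool.Agent.Helper24_ZOL.MGAU
import Pool.Agent.Helper65_ZOL.UNK

/-!
# Squad VTP, row TUN: without clasp a twist word is trivial
-/

set_option autoImplicit false

namespace Pool.Agent.VTP.H49

open Finset Pool.Agent.ZOL Pool.Agent.VTP

/-- The nested word of a twist region followed by its way back. -/
def nest (ov : ℕ → Bool) (s : Bool) (ls : List ℕ) : Word :=
  seg ov s ls ++ (seg ov s ls).reverse.map bar

theorem seg_append_one (ov : ℕ → Bool) (a : ℕ) (l : List ℕ) :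
    ∀ s : Bool, ∃ s' : Bool, seg ov s (l ++ [a]) = seg ov s l ++ [(a, s', ov a)] := by
  induction l with
  | nil => intro s; exact ⟨s, rfl⟩
  | cons b l ih =>
    intro s
    obtain ⟨s', hs'⟩ := ih (!s)
    refine ⟨s', ?_⟩
    show (b, s, ov b) :: seg ov (!s) (l ++ [a]) = (b, s, ov b) :: seg ov (!s) l ++ [(a, s', ov a)]
    rw [hs']
    rfl

theorem mul_good {w E : Word} (hw : IsGauss w ∧ Planar (shadow w))
    (hE : IsGauss E ∧ Planar (shadow E)) : IsGauss (mul w E) ∧ Planar (shadow (mul w E)) :=
  ⟨H24.mgau w E hw.1 hE.1, H11.mpla w E hw.1 hE.1 hw.2 hE.2⟩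

theorem kn_mul_nil {w : Word} (hw : IsGauss w ∧ Planar (shadow w)) : kn (mul w []) = kn w := by
  have h1 : mul w [] = relab (fun n => 2 * n) w := by
    unfold mul
    exact List.append_nil _
  have h2 : Step w (mul w []) := by
    rw [h1]
    refine Step.rename w (fun n => 2 * n) ?_
    intro a _ b _ hab
    have : 2 * a = 2 * b := hab
    omega
  exact (H65.kn_eq hw (mul_good hw H65.d_nil) h2).symm

theorem nest_good (h1 : TggStmt) (h2 : TpgStmt) (ls : List ℕ) (ov : ℕ → Bool) (s : Bool)
    (hn : ls.Nodup) : IsGauss (nest ov s ls) ∧ Planar (shadow (nest ov s ls)) :=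
  ⟨h1.2 ls ov s hn, h2.2 ls ov s hn⟩

theorem kn_nest (h1 : TggStmt) (h2 : TpgStmt) {w : Word} (hw : IsGauss w ∧ Planar (shadow w))
    (ov : ℕ → Bool) (s : Bool) (ls : List ℕ) (hn : ls.Nodup) :
    kn (mul w (nest ov s ls)) = kn w := by
  induction ls using List.reverseRecOn with
  | nil => exact kn_mul_nil hw
  | append_singleton l a ih =>
    have hl : l.Nodup := (List.nodup_append.1 hn).1
    rw [← ih hl]
    refine H65.kn_eq (mul_good hw (nest_good h1 h2 _ ov s hn))
      (mul_good hw (nest_good h1 h2 _ ov s hl)) ?_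
    obtain ⟨s', hs'⟩ := seg_append_one ov a l s
    have e1 : mul w (nest ov s (l ++ [a])) =
        (relab (fun n => 2 * n) w ++ relab (fun n => 2 * n + 1) (seg ov s l)) ++
          [(2 * a + 1, s', ov a), (2 * a + 1, !s', !ov a)] ++
          relab (fun n => 2 * n + 1) ((seg ov s l).reverse.map bar) := by
      unfold mul nest
      rw [hs']
      simp only [relab_append, List.reverse_append, List.map_append, List.append_assoc]
      rfl
    have e2 : mul w (nest ov s l) =
        (relab (fun n => 2 * n) w ++ relab (fun n => 2 * n + 1) (seg ov s l)) ++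
          relab (fun n => 2 * n + 1) ((seg ov s l).reverse.map bar) := by
      unfold mul nest
      simp only [relab_append, List.append_assoc]
    rw [e1, e2]
    exact Step.r1 _ _ _ _ _

/-- **TUN**. -/
theorem tun (h1 : TggStmt) (h2 : TpgStmt) : TunStmt := by
  intro w ls ov hg hp hn h0 h1' hev hov
  have hw : IsGauss w ∧ Planar (shadow w) := ⟨hg, hp⟩
  rw [← kn_nest h1 h2 hw ov true ls hn]
  refine H65.kn_eq (mul_good hw ⟨h1.1 ls ov hn h0 h1', h2.1 ls ov hn h0 h1' hev⟩)
    (mul_good hw (nest_good h1 h2 _ ov true hn)) ?_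
  have e1 : mul w (tg ls ov) =
      relab (fun n => 2 * n) w ++ [(1, false, ov 0), (3, !false, ov 0)] ++
        relab (fun n => 2 * n + 1) (seg ov true ls) ++
        [(3, false, !ov 0), (1, !false, !ov 0)] ++
        relab (fun n => 2 * n + 1) ((seg ov true ls).reverse.map bar) := by
    unfold mul tg
    simp only [relab_append, List.append_assoc, ← hov]
    rfl
  have e2 : mul w (nest ov true ls) =
      relab (fun n => 2 * n) w ++ relab (fun n => 2 * n + 1) (seg ov true ls) ++
        relab (fun n => 2 * n + 1) ((seg ov true ls).reverse.map bar) := by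
    unfold mul nest
    simp only [relab_append, List.append_assoc]
  rw [e1, e2]
  exact Step.r2b _ _ _ _ _ _ _

end Pool.Agent.VTP.H49
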